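import Pool.Agent.Lib.H95H.Fin2

/-!
# MP_62bbd8: the multigraded Betti numbers of all GL-invariant ideals

A formula for the multigraded Betti numbers (so for the `GL`-characters of all syzygy modules) of every
`GL_m × GL_n`-invariant ideal of the generic `m × n` matrix ring, `m = n + k ≥ n`.
-/

open H95H in
theorem Pool.Agent.Results.MP_62bbd8_ag.BettiFormula.result (n k : ℕ) :
    (∀ κ : Fin n → ℕ, Antitone κ → ∀ ω : Wt (n + k) n,
      (kacN (k := k) κ ω : ℤ) = ∑ κ' ∈ abw (∑ i, ω.1 i) κ, ellN κ' ω ∧ 0 ≤ ellN (k := k) κ ω) ∧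
    ∀ I : Ideal (Rg (n + k) n), H95H.Inv (I.restrictScalars ℂ) → ∀ (j : ℕ) (ω : Wt (n + k) n),
      (bettiN I j ω : ℤ) = ∑ κ' ∈ box n (∑ i, ω.1 i),
        (H95H.mul {lam | hw (k := k) lam ∈ I} (∑ i, ω.1 i) j κ' : ℤ) * ellN κ' ω :=
  ⟨fun κ hκ ω => fin2_rec κ hκ ω, fun I hI j ω => fin2_main n k I hI j ω⟩
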